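import Pool.Agent.Helper93.AO.DefsL

/-!
# AO: the sum of the bounds `gl` over the low frequencies (elementary half of AO-SUM)
-/

open MeasureTheory Real Set Filter Topology

set_option autoImplicit false

namespace Pool.Agent.Helper93.AO

private lemma step29 {q P x : ℝ} (hq : 7 / 5 ≤ q) (hP : 0 < P) (hx : 0 < x) :
    min x (P ^ 2 / x) ≤ 12 * P * ((q * x) / (P + q * x) - x / (P + x)) := by
  have h1 : (q * x) / (P + q * x) - x / (P + x) = (q - 1) * x * P / ((P + x) * (P + q * x)) := by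
    have : P + q * x ≠ 0 := by positivity
    have : P + x ≠ 0 := by positivity
    field_simp
    ring
  rw [h1, ← mul_div_assoc, le_div_iff₀ (by positivity)]
  rcases le_total x P with h | h
  · calc min x (P ^ 2 / x) * ((P + x) * (P + q * x)) ≤ x * ((P + P) * (P + q * P)) := by
          gcongr
          exact min_le_left _ _
      _ ≤ 12 * P * ((q - 1) * x * P) := by
          nlinarith [mul_pos (mul_pos hP hP) hx]
  · calc min x (P ^ 2 / x) * ((P + x) * (P + q * x)) ≤ P ^ 2 / x * ((x + x) * (x + q * x)) := by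
          gcongr
          exact min_le_right _ _
      _ = P ^ 2 * x * (2 * (1 + q)) := by
          field_simp
          ring
      _ ≤ 12 * P * ((q - 1) * x * P) := by
          nlinarith [mul_pos (mul_pos hP hP) hx]

private lemma sum29 {q P : ℝ} (hq : 7 / 5 ≤ q) (hP : 0 < P) (m : ℕ) :
    ∑ k ∈ Finset.range m, min (q ^ k) (P ^ 2 / q ^ k) ≤ 12 * P * (q ^ m / (P + q ^ m)) := by
  have hq0 : 0 < q := by linarith
  induction m with
  | zero => simp; positivity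
  | succ m ih =>
    rw [Finset.sum_range_succ, pow_succ' q m]
    have := step29 hq hP (pow_pos hq0 m)
    linarith

private lemma sum29' {q P : ℝ} (hq : 7 / 5 ≤ q) (hP : 0 < P) (m : ℕ) :
    ∑ k ∈ Finset.range m, min (q ^ k) (P ^ 2 / q ^ k) ≤ 12 * P := by
  have hq0 : 0 < q := by linarith
  refine (sum29 hq hP m).trans ?_
  have h1 : q ^ m / (P + q ^ m) ≤ 1 := by
    rw [div_le_one (by positivity)]
    linarith
  calc 12 * P * (q ^ m / (P + q ^ m)) ≤ 12 * P * 1 := by gcongr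
    _ = 12 * P := mul_one _

private lemma geo29 {q : ℝ} (hq : 7 / 5 ≤ q) (m : ℕ) : ∑ j ∈ Finset.range m, (1 / q) ^ j ≤ 4 * (1 - (1 / q) ^ m) := by
  have hq0 : 0 < q := by linarith
  have hr : 1 / q ≤ 3 / 4 := by
    rw [div_le_iff₀ hq0]
    linarith
  induction m with
  | zero => simp
  | succ m ih =>
    rw [Finset.sum_range_succ, pow_succ]
    have : 0 < (1 / q) ^ m := by positivity
    nlinarith

private lemma term29 (n p j : ℕ) (hj : j ≤ n) {P : ℝ} (hP2 : P ^ 2 = √(p : ℝ)) :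
    (2 : ℝ) ^ (-(3 / 2) * n : ℝ) * min ((4 : ℝ) ^ n / 2 ^ j) (2 ^ n * √(p : ℝ)) =
      (1 / √2) ^ j * min (√2 ^ (n - j)) (P ^ 2 / √2 ^ (n - j)) := by
  obtain ⟨k, rfl⟩ := Nat.exists_eq_add_of_le hj
  have hq : 0 < √(2 : ℝ) := by positivity
  have h2 : (2 : ℝ) = √2 ^ 2 := (Real.sq_sqrt (by norm_num)).symm
  have h4 : (4 : ℝ) = √2 ^ 4 := by
    rw [show (4 : ℕ) = 2 * 2 by norm_num, pow_mul, ← h2]
    norm_num
  have e1 : (2 : ℝ) ^ (-(3 / 2) * ((j + k : ℕ) : ℝ) : ℝ) = (√2 ^ (j + k))⁻¹ ^ 3 := by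
    rw [Real.sqrt_eq_rpow, ← Real.rpow_natCast ((2 : ℝ) ^ (1 / 2 : ℝ)), ← Real.rpow_mul (by norm_num),
      ← Real.rpow_neg (by norm_num), ← Real.rpow_natCast, ← Real.rpow_mul (by norm_num)]
    congr 1
    push_cast
    ring
  have f4 : (4 : ℝ) ^ (j + k) = (√2 ^ j * √2 ^ k) ^ 4 := by
    rw [← pow_add, ← pow_mul, mul_comm (j + k) 4, pow_mul, ← h4]
  have f2 : (2 : ℝ) ^ (j + k) = (√2 ^ j * √2 ^ k) ^ 2 := by
    rw [← pow_add, ← pow_mul, mul_comm (j + k) 2, pow_mul, ← h2]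
  have f1 : (2 : ℝ) ^ j = (√2 ^ j) ^ 2 := by
    rw [← pow_mul, mul_comm j 2, pow_mul, ← h2]
  have f0 : (1 / √(2 : ℝ)) ^ j = 1 / √2 ^ j := by rw [one_div_pow]
  rw [e1, Nat.add_sub_cancel_left, mul_min_of_nonneg _ _ (by positivity), mul_min_of_nonneg _ _ (by positivity), hP2,
    f4, f2, f1, f0, pow_add]
  have ha : (0 : ℝ) < √2 ^ j := by positivity
  have hb : (0 : ℝ) < √2 ^ k := by positivity
  generalize √(2 : ℝ) ^ j = a at *
  generalize √(2 : ℝ) ^ k = b at *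
  congr 1
  · field_simp
  · field_simp

theorem gl_sum_h29 : ∃ C : ℝ, 1 ≤ C ∧ ∀ p m : ℕ, 1 ≤ p → ∑ n ∈ Finset.range m, (2 : ℝ) ^ (-(3 / 2) * n : ℝ) * gl n p ≤ C * (p : ℝ) ^ (1 / 4 : ℝ) := by
  refine ⟨48, by norm_num, fun p m hp => ?_⟩
  have hp0 : (0 : ℝ) < p := by exact_mod_cast hp
  set P : ℝ := (p : ℝ) ^ (1 / 4 : ℝ) with hPdef
  have hP : 0 < P := Real.rpow_pos_of_pos hp0 _
  have hP2 : P ^ 2 = √(p : ℝ) := by
    rw [hPdef, Real.sqrt_eq_rpow, ← Real.rpow_natCast, ← Real.rpow_mul hp0.le]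
    norm_num
  have hq : 7 / 5 ≤ √(2 : ℝ) := by
    rw [Real.le_sqrt (by norm_num) (by norm_num)]
    norm_num
  have hq0 : 0 < √(2 : ℝ) := by positivity
  calc ∑ n ∈ Finset.range m, (2 : ℝ) ^ (-(3 / 2) * n : ℝ) * gl n p
      = ∑ n ∈ Finset.range m, ∑ j ∈ Finset.range (n + 1), (1 / √2) ^ j * min (√2 ^ (n - j)) (P ^ 2 / √2 ^ (n - j)) := by
        refine Finset.sum_congr rfl fun n _ => ?_
        rw [gl, Finset.mul_sum]
        refine Finset.sum_congr rfl fun j hj => ?_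
        exact term29 n p j (by have := Finset.mem_range.1 hj; omega) hP2
    _ = ∑ j ∈ Finset.range m, ∑ k ∈ Finset.range (m - j), (1 / √2) ^ j * min (√2 ^ k) (P ^ 2 / √2 ^ k) :=
        Finset.sum_range_diag_flip m fun j k => (1 / √2) ^ j * min (√2 ^ k) (P ^ 2 / √2 ^ k)
    _ ≤ ∑ j ∈ Finset.range m, (1 / √2) ^ j * (12 * P) := by
        refine Finset.sum_le_sum fun j _ => ?_
        rw [← Finset.mul_sum]
        gcongr
        exact sum29' hq hP _
    _ = (∑ j ∈ Finset.range m, (1 / √2) ^ j) * (12 * P) := by rw [Finset.sum_mul]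
    _ ≤ 4 * (12 * P) := by
        gcongr
        refine (geo29 hq m).trans ?_
        have : 0 < (1 / √(2 : ℝ)) ^ m := by positivity
        linarith
    _ = 48 * P := by ring

end Pool.Agent.Helper93.AO
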